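import Mathlib

/-!
# The inhomogeneous uniform spectrum of a Liouville number is the whole of `[0, ∞]`
-/

set_option autoImplicit false

open Filter

namespace Pool.Agent.Results.MP_12d26a_nt.FullSpectrum

/-- For every sufficiently large real `X` there are integers `x₀, x₁` with `1 ≤ x₁ ≤ X` and
`|α + x₀ + ζ x₁| ≤ X ^ (-w)`. -/
def UniformlySolvable (ζ α w : ℝ) : Prop :=
  ∃ X₀ : ℝ, ∀ X : ℝ, X₀ ≤ X → ∃ x₀ x₁ : ℤ, 1 ≤ x₁ ∧ (x₁ : ℝ) ≤ X ∧ |α + x₀ + ζ * x₁| ≤ X ^ (-w)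

/-- The inhomogeneous uniform exponent `ŵ₁(ζ, α)`, in the extended reals: the supremum of the real
numbers `w` with the property above. -/
noncomputable def uniformExponent (ζ α : ℝ) : EReal :=
  sSup {W : EReal | ∃ w : ℝ, W = (w : EReal) ∧ UniformlySolvable ζ α w}

/-- The spectrum `S(ζ)`: the set of the values `ŵ₁(ζ, α)`, `α` real and not in `ℤ + ℤ ζ`. -/
def spectrum (ζ : ℝ) : Set EReal :=
  {W | ∃ α : ℝ, (∀ a b : ℤ, α ≠ a + b * ζ) ∧ uniformExponent ζ α = W}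

/-- One step of the construction. -/
theorem step (ζ : ℝ) (hζ : Liouville ζ) (c : ℝ) (hc : 0 < c) (M : ℕ) (ε : ℝ) (hε : 0 < ε) :
    ∃ v : ℤ × ℕ × ℕ, 1 ≤ v.2.1 ∧ 1 ≤ v.2.2 ∧ (v.2.1 : ℝ) * ζ - v.1 ≠ 0 ∧
      (v.2.2 : ℝ) * |(v.2.1 : ℝ) * ζ - v.1| ≤ 1 / (8 * v.2.1) ∧
      (v.2.2 : ℝ) * |(v.2.1 : ℝ) * ζ - v.1| ≤ ε ∧ M ≤ v.2.2 * v.2.1 ∧
      (v.2.2 : ℝ) * |(v.2.1 : ℝ) * ζ - v.1| ≤ ((v.2.2 : ℝ) * v.2.1) ^ (-c) ∧
      (2 * ((v.2.2 : ℝ) * v.2.1)) ^ (-c) / 2 ≤ (v.2.2 : ℝ) * |(v.2.1 : ℝ) * ζ - v.1| := by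
  obtain ⟨N, hN⟩ := exists_nat_gt (max c (2 * (1 + c) / c))
  have hN1 : c < N := lt_of_le_of_lt (le_max_left _ _) hN
  have hN2 : 2 * (1 + c) / c < N := lt_of_le_of_lt (le_max_right _ _) hN
  obtain ⟨q, hq, p, hne, hlt⟩ := (frequently_atTop.mp (hζ.frequently_exists_num (N + 1)))
    (max (max 8 M) ⌈1 / ε⌉₊)
  have hq8 : 8 ≤ q := (le_max_left _ _).trans ((le_max_left _ _).trans hq)
  have hqM : M ≤ q := (le_max_right _ _).trans ((le_max_left _ _).trans hq)
  have hqε : 1 / ε ≤ q := (Nat.le_ceil _).trans (by exact_mod_cast (le_max_right _ _).trans hq)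
  have hq8R : (8 : ℝ) ≤ q := by exact_mod_cast hq8
  have hq0 : (0 : ℝ) < q := by linarith
  have hq1 : (1 : ℝ) ≤ q := by linarith
  set D : ℝ := (q : ℝ) * ζ - p with hD
  have hDne : D ≠ 0 := by
    intro h0
    apply hne
    rw [eq_div_iff hq0.ne']
    linarith
  set θ : ℝ := |D| with hθ
  have hθ0 : 0 < θ := abs_pos.mpr hDne
  have hθN : θ < (q : ℝ) ^ (-(N : ℝ)) := by
    have h1 : θ = q * |ζ - p / q| := by
      rw [hθ, hD, ← abs_of_pos hq0, ← abs_mul, abs_of_pos hq0]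
      congr 1
      field_simp
    rw [h1, Real.rpow_neg hq0.le, Real.rpow_natCast]
    calc (q : ℝ) * |ζ - p / q| < q * (1 / (q : ℝ) ^ (N + 1)) := mul_lt_mul_of_pos_left hlt hq0
      _ = ((q : ℝ) ^ N)⁻¹ := by
          rw [pow_succ]
          field_simp
  have h1c : 0 < 1 + c := by linarith
  -- the real multiplier
  set B : ℝ := ((q : ℝ) ^ c * θ) ^ (-(1 / (1 + c))) with hB
  have hqcθ : 0 < (q : ℝ) ^ c * θ := by positivity
  have hqcθ1 : (q : ℝ) ^ c * θ ≤ 1 := by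
    calc (q : ℝ) ^ c * θ ≤ (q : ℝ) ^ c * (q : ℝ) ^ (-(N : ℝ)) :=
          mul_le_mul_of_nonneg_left hθN.le (by positivity)
      _ = (q : ℝ) ^ (c + -(N : ℝ)) := by rw [← Real.rpow_add hq0]
      _ ≤ 1 := Real.rpow_le_one_of_one_le_of_nonpos hq1 (by linarith)
  have hB1 : 1 ≤ B := Real.one_le_rpow_of_pos_of_le_one_of_nonpos hqcθ hqcθ1 (by
    rw [neg_nonpos]
    positivity)
  have hB0 : 0 < B := by linarith
  -- B θ = (B q) ^ (-c)
  have hBeq : B * θ = (B * q) ^ (-c) := by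
    have h2 : B ^ (1 + c) = ((q : ℝ) ^ c * θ)⁻¹ := by
      rw [hB, ← Real.rpow_mul hqcθ.le, neg_mul, one_div_mul_cancel h1c.ne', Real.rpow_neg_one]
    rw [Real.rpow_add hB0, Real.rpow_one] at h2
    rw [Real.rpow_neg (by positivity), Real.mul_rpow hB0.le hq0.le]
    have h3 : B * B ^ c * ((q : ℝ) ^ c * θ) = 1 := by
      rw [h2]
      exact inv_mul_cancel₀ hqcθ.ne'
    apply eq_inv_of_mul_eq_one_left
    linarith
  have hBθ : B * θ ≤ (q : ℝ) ^ (-(2 : ℝ)) := by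
    have h2 : B * θ = (θ / q) ^ (c / (1 + c)) := by
      have h3 : (B * θ) ^ ((1 + c) / c) = θ / q := by
        have h4 : B * θ = ((q : ℝ) ^ c) ^ (-(1 / (1 + c))) * (θ ^ (-(1 / (1 + c))) * θ) := by
          rw [hB, Real.mul_rpow (by positivity) hθ0.le]
          ring
        have h5 : θ ^ (-(1 / (1 + c))) * θ = θ ^ (c / (1 + c)) := by
          nth_rewrite 2 [← Real.rpow_one θ]
          rw [← Real.rpow_add hθ0]
          congr 1
          field_simp
          ring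
        have h6 : ((q : ℝ) ^ c) ^ (-(1 / (1 + c))) = (q : ℝ) ^ (-(c / (1 + c))) := by
          rw [← Real.rpow_mul hq0.le]
          congr 1
          ring
        rw [h4, h5, h6, Real.mul_rpow (by positivity) (by positivity), ← Real.rpow_mul hq0.le,
          ← Real.rpow_mul hθ0.le]
        have h7 : -(c / (1 + c)) * ((1 + c) / c) = -1 := by field_simp
        have h8 : (c / (1 + c)) * ((1 + c) / c) = 1 := by field_simp
        rw [h7, h8, Real.rpow_neg_one, Real.rpow_one]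
        field_simp
      rw [← h3, ← Real.rpow_mul (by positivity)]
      have h8 : ((1 + c) / c) * (c / (1 + c)) = 1 := by field_simp
      rw [h8, Real.rpow_one]
    rw [h2]
    have h3 : θ / q ≤ (q : ℝ) ^ (-(N : ℝ)) := by
      rw [div_le_iff₀ hq0]
      calc θ ≤ (q : ℝ) ^ (-(N : ℝ)) * 1 := by rw [mul_one]; exact hθN.le
        _ ≤ (q : ℝ) ^ (-(N : ℝ)) * q := mul_le_mul_of_nonneg_left hq1 (by positivity)
    calc (θ / q) ^ (c / (1 + c)) ≤ ((q : ℝ) ^ (-(N : ℝ))) ^ (c / (1 + c)) :=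
          Real.rpow_le_rpow (by positivity) h3 (by positivity)
      _ = (q : ℝ) ^ (-(N : ℝ) * (c / (1 + c))) := by rw [← Real.rpow_mul hq0.le]
      _ ≤ (q : ℝ) ^ (-(2 : ℝ)) := by
          apply Real.rpow_le_rpow_of_exponent_le hq1
          rw [div_lt_iff₀ hc] at hN2
          have h4 : 2 ≤ (N : ℝ) * (c / (1 + c)) := by
            rw [mul_div_assoc', le_div_iff₀ h1c]
            linarith
          linarith
  have hq2 : (q : ℝ) ^ (-(2 : ℝ)) = 1 / ((q : ℝ) * q) := by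
    rw [Real.rpow_neg hq0.le]
    norm_num
    ring
  rw [hq2] at hBθ
  -- integral multiplier
  have hbB : ((⌊B⌋₊ : ℕ) : ℝ) ≤ B := Nat.floor_le hB0.le
  have hb1 : 1 ≤ ⌊B⌋₊ := Nat.le_floor (by simpa using hB1)
  have hb1R : (1 : ℝ) ≤ (⌊B⌋₊ : ℕ) := by exact_mod_cast hb1
  have hBb : B ≤ 2 * ((⌊B⌋₊ : ℕ) : ℝ) := by
    have := Nat.lt_floor_add_one B
    linarith
  set b : ℕ := ⌊B⌋₊ with hb
  have hbθ : (b : ℝ) * θ ≤ 1 / ((q : ℝ) * q) :=
    (mul_le_mul_of_nonneg_right hbB hθ0.le).trans hBθ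
  have hbq0 : 0 < (b : ℝ) * q := by positivity
  refine ⟨(p, q, b), by show 1 ≤ q; omega, hb1, hDne, ?_, ?_, ?_, ?_, ?_⟩
  · show (b : ℝ) * θ ≤ 1 / (8 * q)
    refine hbθ.trans ?_
    apply one_div_le_one_div_of_le (by positivity)
    nlinarith
  · show (b : ℝ) * θ ≤ ε
    refine hbθ.trans ?_
    rw [div_le_iff₀ (by positivity)]
    rw [div_le_iff₀ hε] at hqε
    nlinarith
  · show M ≤ b * q
    exact hqM.trans (Nat.le_mul_of_pos_left q (by omega))
  · show (b : ℝ) * θ ≤ ((b : ℝ) * q) ^ (-c)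
    calc (b : ℝ) * θ ≤ B * θ := mul_le_mul_of_nonneg_right hbB hθ0.le
      _ = (B * q) ^ (-c) := hBeq
      _ ≤ ((b : ℝ) * q) ^ (-c) :=
          Real.rpow_le_rpow_of_nonpos hbq0 (mul_le_mul_of_nonneg_right hbB hq0.le) (by linarith)
  · show (2 * ((b : ℝ) * q)) ^ (-c) / 2 ≤ (b : ℝ) * θ
    have h2 : (2 * ((b : ℝ) * q)) ^ (-c) ≤ (B * q) ^ (-c) := by
      apply Real.rpow_le_rpow_of_nonpos (by positivity) _ (by linarith)
      rw [← mul_assoc]
      exact mul_le_mul_of_nonneg_right hBb hq0.le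
    rw [← hBeq] at h2
    have h3 : B * θ ≤ 2 * (b : ℝ) * θ := mul_le_mul_of_nonneg_right hBb hθ0.le
    linarith

/-- The sequences of the construction. -/
theorem sequences (ζ : ℝ) (hζ : Liouville ζ) (c : ℕ → ℝ) (hc : ∀ k, 0 < c k) :
    ∃ (p : ℕ → ℤ) (q b : ℕ → ℕ), (∀ k, 1 ≤ q k) ∧ (∀ k, 1 ≤ b k) ∧
      (∀ k, (q k : ℝ) * ζ - p k ≠ 0) ∧
      (∀ k, (b k : ℝ) * |(q k : ℝ) * ζ - p k| ≤ 1 / (8 * q k)) ∧
      (∀ k, (b (k + 1) : ℝ) * |(q (k + 1) : ℝ) * ζ - p (k + 1)| ≤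
        ((b k : ℝ) * |(q k : ℝ) * ζ - p k|) / 8) ∧
      (∀ k, 8 * (∑ j ∈ Finset.range k, b j * q j) + 8 * (k + 1) ≤ b k * q k) ∧
      (∀ k, (b k : ℝ) * |(q k : ℝ) * ζ - p k| ≤ ((b k : ℝ) * q k) ^ (-c k)) ∧
      (∀ k, (2 * ((b k : ℝ) * q k)) ^ (-c k) / 2 ≤ (b k : ℝ) * |(q k : ℝ) * ζ - p k|) := by
  have hstep := fun (k M : ℕ) (ε : ℝ) (hε : 0 < ε) => step ζ hζ (c k) (hc k) M ε hε
  choose! F hF using hstep
  -- state: the vector, the partial sum, the error
  obtain ⟨st, hst0, hstS⟩ : ∃ st : ℕ → (ℤ × ℕ × ℕ) × ℕ × ℝ,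
      st 0 = (F 0 8 1, (F 0 8 1).2.2 * (F 0 8 1).2.1,
        ((F 0 8 1).2.2 : ℝ) * |((F 0 8 1).2.1 : ℝ) * ζ - (F 0 8 1).1|) ∧
      ∀ k, st (k + 1) = (F (k + 1) (8 * (st k).2.1 + 8 * (k + 1 + 1)) ((st k).2.2 / 8),
        (st k).2.1 + (F (k + 1) (8 * (st k).2.1 + 8 * (k + 1 + 1)) ((st k).2.2 / 8)).2.2 *
          (F (k + 1) (8 * (st k).2.1 + 8 * (k + 1 + 1)) ((st k).2.2 / 8)).2.1,
        ((F (k + 1) (8 * (st k).2.1 + 8 * (k + 1 + 1)) ((st k).2.2 / 8)).2.2 : ℝ) *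
          |((F (k + 1) (8 * (st k).2.1 + 8 * (k + 1 + 1)) ((st k).2.2 / 8)).2.1 : ℝ) * ζ -
            (F (k + 1) (8 * (st k).2.1 + 8 * (k + 1 + 1)) ((st k).2.2 / 8)).1|) :=
    ⟨fun k => Nat.rec (motive := fun _ => (ℤ × ℕ × ℕ) × ℕ × ℝ)
      (F 0 8 1, (F 0 8 1).2.2 * (F 0 8 1).2.1,
        ((F 0 8 1).2.2 : ℝ) * |((F 0 8 1).2.1 : ℝ) * ζ - (F 0 8 1).1|)
      (fun k s => (F (k + 1) (8 * s.2.1 + 8 * (k + 1 + 1)) (s.2.2 / 8),
        s.2.1 + (F (k + 1) (8 * s.2.1 + 8 * (k + 1 + 1)) (s.2.2 / 8)).2.2 *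
          (F (k + 1) (8 * s.2.1 + 8 * (k + 1 + 1)) (s.2.2 / 8)).2.1,
        ((F (k + 1) (8 * s.2.1 + 8 * (k + 1 + 1)) (s.2.2 / 8)).2.2 : ℝ) *
          |((F (k + 1) (8 * s.2.1 + 8 * (k + 1 + 1)) (s.2.2 / 8)).2.1 : ℝ) * ζ -
            (F (k + 1) (8 * s.2.1 + 8 * (k + 1 + 1)) (s.2.2 / 8)).1|)) k, rfl, fun k => rfl⟩
  have herr : ∀ k, (st k).2.2 = ((st k).1.2.2 : ℝ) * |((st k).1.2.1 : ℝ) * ζ - (st k).1.1| := by
    intro k
    cases k with
    | zero => rw [hst0]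
    | succ k => rw [hstS]
  have hpos : ∀ k, 0 < (st k).2.2 := by
    intro k
    induction k with
    | zero =>
      rw [herr, hst0]
      obtain ⟨h1, h2, h3, -⟩ := hF 0 8 1 one_pos
      have h2' : (0 : ℝ) < ((F 0 8 1).2.2 : ℕ) := by exact_mod_cast h2
      exact mul_pos h2' (abs_pos.mpr h3)
    | succ k ih =>
      rw [herr, hstS]
      obtain ⟨h1, h2, h3, -⟩ := hF (k + 1) (8 * (st k).2.1 + 8 * (k + 1 + 1)) ((st k).2.2 / 8)
        (by positivity)
      have h2' : (0 : ℝ) <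
          ((F (k + 1) (8 * (st k).2.1 + 8 * (k + 1 + 1)) ((st k).2.2 / 8)).2.2 : ℕ) := by
        exact_mod_cast h2
      exact mul_pos h2' (abs_pos.mpr h3)
  have hsum : ∀ k, (st k).2.1 = ∑ j ∈ Finset.range (k + 1), (st j).1.2.2 * (st j).1.2.1 := by
    intro k
    induction k with
    | zero =>
      rw [Finset.sum_range_one, hst0]
    | succ k ih =>
      rw [Finset.sum_range_succ, ← ih, hstS]
  have hall : ∀ k, 1 ≤ (st k).1.2.1 ∧ 1 ≤ (st k).1.2.2 ∧
      ((st k).1.2.1 : ℝ) * ζ - (st k).1.1 ≠ 0 ∧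
      ((st k).1.2.2 : ℝ) * |((st k).1.2.1 : ℝ) * ζ - (st k).1.1| ≤ 1 / (8 * (st k).1.2.1) ∧
      8 * (∑ j ∈ Finset.range k, (st j).1.2.2 * (st j).1.2.1) + 8 * (k + 1) ≤
        (st k).1.2.2 * (st k).1.2.1 ∧
      ((st k).1.2.2 : ℝ) * |((st k).1.2.1 : ℝ) * ζ - (st k).1.1| ≤
        (((st k).1.2.2 : ℝ) * (st k).1.2.1) ^ (-c k) ∧
      (2 * (((st k).1.2.2 : ℝ) * (st k).1.2.1)) ^ (-c k) / 2 ≤
        ((st k).1.2.2 : ℝ) * |((st k).1.2.1 : ℝ) * ζ - (st k).1.1| := by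
    intro k
    cases k with
    | zero =>
      obtain ⟨h1, h2, h3, h4, h5, h6, h7, h8⟩ := hF 0 8 1 one_pos
      rw [hst0]
      refine ⟨h1, h2, h3, h4, ?_, h7, h8⟩
      simpa using h6
    | succ k =>
      obtain ⟨h1, h2, h3, h4, h5, h6, h7, h8⟩ := hF (k + 1) (8 * (st k).2.1 + 8 * (k + 1 + 1))
        ((st k).2.2 / 8) (by have := hpos k; positivity)
      rw [← hsum k, hstS k]
      exact ⟨h1, h2, h3, h4, h6, h7, h8⟩
  have hdec : ∀ k, ((st (k + 1)).1.2.2 : ℝ) * |((st (k + 1)).1.2.1 : ℝ) * ζ - (st (k + 1)).1.1| ≤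
      (((st k).1.2.2 : ℝ) * |((st k).1.2.1 : ℝ) * ζ - (st k).1.1|) / 8 := by
    intro k
    rw [← herr k, hstS k]
    obtain ⟨h1, h2, h3, h4, h5, -⟩ := hF (k + 1) (8 * (st k).2.1 + 8 * (k + 1 + 1))
      ((st k).2.2 / 8) (by have := hpos k; positivity)
    exact h5
  exact ⟨fun k => (st k).1.1, fun k => (st k).1.2.1, fun k => (st k).1.2.2,
    fun k => (hall k).1, fun k => (hall k).2.1, fun k => (hall k).2.2.1,
    fun k => (hall k).2.2.2.1, hdec, fun k => (hall k).2.2.2.2.1,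
    fun k => (hall k).2.2.2.2.2.1, fun k => (hall k).2.2.2.2.2.2⟩

/-- The point `α` and its approximations. -/
theorem point (ζ : ℝ) (hζ : Liouville ζ) (c : ℕ → ℝ) (hc : ∀ k, 0 < c k) :
    ∃ (α : ℝ) (t s : ℕ → ℕ) (P : ℕ → ℤ) (e : ℕ → ℝ), (∀ k, 0 < e k) ∧
      (∀ k, 8 * s k + 8 * (k + 1) ≤ t k) ∧ (∀ k, s (k + 1) = s k + t k) ∧ s 0 = 0 ∧
      (∀ k, |α + P k + ζ * s k| ≤ 2 * e k) ∧
      (∀ k, ∀ x₀ x₁ : ℤ, |(x₁ : ℝ)| ≤ t k / 8 → e k / 2 ≤ |α + x₀ + ζ * x₁|) ∧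
      (∀ k, e k ≤ (t k : ℝ) ^ (-c k)) ∧ (∀ k, (2 * (t k : ℝ)) ^ (-c k) / 2 ≤ e k) := by
  obtain ⟨p, q, b, hq1, hb1, hne, h8, hdec, hsum, hup, hlow⟩ := sequences ζ hζ c hc
  set D : ℕ → ℝ := fun k => (q k : ℝ) * ζ - p k with hD
  set e : ℕ → ℝ := fun k => (b k : ℝ) * |D k| with he
  have he0 : ∀ k, 0 < e k := fun k => mul_pos (by exact_mod_cast hb1 k) (abs_pos.mpr (hne k))
  have hgeo : ∀ k j, e (k + j) ≤ e k * (1 / 8) ^ j := by
    intro k j
    induction j with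
    | zero => simp
    | succ j ih =>
      have h1 : e (k + j + 1) ≤ e (k + j) / 8 := hdec (k + j)
      rw [← add_assoc, pow_succ]
      linarith
  set f : ℕ → ℝ := fun k => (b k : ℝ) * D k with hf
  have hfe : ∀ k, |f k| = e k := by
    intro k
    rw [hf, he]
    simp only
    rw [abs_mul, Nat.abs_cast]
  have hgs : Summable (fun j : ℕ => (1 / 8 : ℝ) ^ j) := summable_geometric_of_lt_one (by norm_num)
    (by norm_num)
  have hsumm : Summable f := by
    apply Summable.of_norm_bounded (g := fun j => e 0 * (1 / 8) ^ j) (hgs.mul_left _)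
    intro j
    rw [Real.norm_eq_abs, hfe]
    have := hgeo 0 j
    rwa [zero_add] at this
  have hR : ∀ k, |∑' j, f (j + (k + 1))| ≤ e k / 7 := by
    intro k
    have h1 : ∀ j, ‖f (j + (k + 1))‖ ≤ (e k / 8) * (1 / 8) ^ j := by
      intro j
      rw [Real.norm_eq_abs, hfe, show j + (k + 1) = k + (j + 1) by ring]
      have := hgeo k (j + 1)
      rw [pow_succ] at this
      linarith
    have h2 := tsum_of_norm_bounded (((hgs.hasSum).mul_left (e k / 8))) h1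
    rw [Real.norm_eq_abs, tsum_geometric_of_lt_one (by norm_num) (by norm_num)] at h2
    refine h2.trans (le_of_eq ?_)
    norm_num
    ring
  set s : ℕ → ℕ := fun k => ∑ j ∈ Finset.range k, b j * q j with hs
  set P : ℕ → ℤ := fun k => -∑ j ∈ Finset.range k, (b j : ℤ) * p j with hP
  set α : ℝ := -∑' j, f j with hα
  have hsplit : ∀ k, α = -(ζ * s k + P k) - f k - ∑' j, f (j + (k + 1)) := by
    intro k
    have h1 := hsumm.sum_add_tsum_nat_add (k + 1)
    rw [hα, ← h1, Finset.sum_range_succ]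
    have h2 : ∑ j ∈ Finset.range k, f j = ζ * s k + P k := by
      rw [hs, hP, hf]
      simp only [hD]
      push_cast
      rw [← sub_eq_add_neg, Finset.mul_sum, ← Finset.sum_sub_distrib]
      apply Finset.sum_congr rfl
      intro j _
      ring
    rw [h2]
    ring
  refine ⟨α, fun k => b k * q k, s, P, e, he0, hsum, ?_, ?_, ?_, ?_, ?_, ?_⟩
  · intro k
    simp only [hs]
    rw [Finset.sum_range_succ]
  · simp [hs]
  · intro k
    have h1 : α + P k + ζ * s k = -(f k) - ∑' j, f (j + (k + 1)) := by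
      rw [hsplit k]
      ring
    rw [h1]
    calc |-(f k) - ∑' j, f (j + (k + 1))| ≤ |-(f k)| + |∑' j, f (j + (k + 1))| := abs_sub _ _
      _ ≤ e k + e k / 7 := by
          rw [abs_neg, hfe]
          exact add_le_add le_rfl (hR k)
      _ ≤ 2 * e k := by
          have := he0 k
          linarith
  · intro k x₀ x₁ hx
    have hqk : (0 : ℝ) < q k := by exact_mod_cast hq1 k
    have hek := he0 k
    -- y = m ζ + n with m = x₁ - s k, n = x₀ - P k
    have hsk : (s k : ℝ) ≤ (b k : ℝ) * q k / 8 := by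
      have h1 : ((8 * s k + 8 * (k + 1) : ℕ) : ℝ) ≤ ((b k * q k : ℕ) : ℝ) := by
        exact_mod_cast hsum k
      push_cast at h1
      have h2 : (0 : ℝ) ≤ k := Nat.cast_nonneg k
      linarith
    have hx' : |(x₁ : ℝ)| ≤ (b k : ℝ) * q k / 8 := by
      have : ((b k * q k : ℕ) : ℝ) = (b k : ℝ) * q k := by push_cast; ring
      rw [← this]
      exact hx
    have hm : |((x₁ - s k : ℤ) : ℝ)| ≤ (b k : ℝ) * q k / 4 := by
      push_cast
      calc |(x₁ : ℝ) - s k| ≤ |(x₁ : ℝ)| + |(s k : ℝ)| := abs_sub _ _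
        _ ≤ (b k : ℝ) * q k / 4 := by
            rw [Nat.abs_cast]
            linarith
    set m : ℤ := x₁ - s k with hmdef
    set n : ℤ := x₀ - P k with hndef
    have h1 : α + x₀ + ζ * x₁ = ((m : ℝ) * ζ + n - f k) - ∑' j, f (j + (k + 1)) := by
      rw [hsplit k, hmdef, hndef]
      push_cast
      ring
    have h2 : (m : ℝ) * ζ + n = ((m * p k + n * q k : ℤ) : ℝ) / q k + m * D k / q k := by
      simp only [hD]
      push_cast
      field_simp
      ring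
    have h3 : |(m : ℝ) * D k / q k| ≤ e k / 4 := by
      rw [abs_div, abs_mul, abs_of_pos hqk, div_le_iff₀ hqk]
      calc |(m : ℝ)| * |D k| ≤ ((b k : ℝ) * q k / 4) * |D k| :=
            mul_le_mul_of_nonneg_right hm (abs_nonneg _)
        _ = e k / 4 * q k := by simp only [he]; ring
    have h4 : 3 * e k / 4 ≤ |(m : ℝ) * ζ + n - f k| := by
      rw [h2]
      rcases eq_or_ne (m * p k + n * q k) 0 with h0 | h0
      · rw [h0, Int.cast_zero, zero_div, zero_add]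
        have h5 := abs_sub_abs_le_abs_sub (f k) ((m : ℝ) * D k / q k)
        rw [abs_sub_comm, hfe] at h5
        linarith
      · have h5 : 1 / (q k : ℝ) ≤ |((m * p k + n * q k : ℤ) : ℝ) / q k| := by
          rw [abs_div, abs_of_pos hqk]
          apply div_le_div_of_nonneg_right _ hqk.le
          exact_mod_cast Int.one_le_abs h0
        have h6 : e k ≤ 1 / (8 * q k) := h8 k
        have h7 : 1 / (8 * (q k : ℝ)) = (1 / (q k : ℝ)) / 8 := by
          rw [one_div, one_div, mul_inv]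
          ring
        rw [h7] at h6
        set u : ℝ := ((m * p k + n * q k : ℤ) : ℝ) / q k with hu
        have h9 : |u| - |(m : ℝ) * D k / q k| - |f k| ≤ |u + m * D k / q k - f k| := by
          have h10 := abs_sub_abs_le_abs_sub (u + m * D k / q k) (f k)
          have h11 := abs_sub_abs_le_abs_sub u (-((m : ℝ) * D k / q k))
          rw [abs_neg, sub_neg_eq_add] at h11
          linarith
        rw [hfe] at h9
        linarith
    have h5 := abs_sub_abs_le_abs_sub ((m : ℝ) * ζ + n - f k) (∑' j, f (j + (k + 1)))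
    have h6 := hR k
    rw [h1]
    linarith
  · intro k
    push_cast
    exact hup k
  · intro k
    push_cast
    exact hlow k

theorem all_nonpos (ζ α w : ℝ) (hw : w ≤ 0) : UniformlySolvable ζ α w := by
  refine ⟨1, fun X hX => ⟨-round (α + ζ), 1, le_rfl, by simpa using hX, ?_⟩⟩
  have h1 : α + ((-round (α + ζ) : ℤ) : ℝ) + ζ * ((1 : ℤ) : ℝ) = (α + ζ) - round (α + ζ) := by
    push_cast
    ring
  rw [h1]
  have h2 := abs_sub_round (α + ζ)
  have h3 : (1 : ℝ) ≤ X ^ (-w) := Real.one_le_rpow hX (by linarith)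
  linarith

/-- Every value in `[0, ∞]` is attained. -/
theorem attained (ζ : ℝ) (hζ : Liouville ζ) (C : EReal) (hC : 0 ≤ C) : C ∈ spectrum ζ := by
  -- a sequence of positive reals tending to C
  obtain ⟨c, hc0, hc1, hc2⟩ : ∃ c : ℕ → ℝ, (∀ k, 0 < c k) ∧
      (∀ w : ℝ, (w : EReal) < C → ∃ δ : ℝ, 0 < δ ∧ ∀ᶠ k in atTop, w + δ ≤ c k) ∧
      (∀ w : ℝ, C < (w : EReal) → ∃ δ : ℝ, 0 < δ ∧ ∀ᶠ k in atTop, c k + δ ≤ w) := by
    rcases eq_or_ne C ⊤ with h | h
    · refine ⟨fun k => k + 1, fun k => by positivity, fun w _ => ⟨1, one_pos, ?_⟩, fun w hw => ?_⟩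
      · obtain ⟨n, hn⟩ := exists_nat_gt w
        filter_upwards [eventually_ge_atTop n] with k hk
        have : (n : ℝ) ≤ k := by exact_mod_cast hk
        linarith
      · rw [h] at hw
        exact absurd hw (not_lt.mpr le_top)
    · lift C to ℝ using ⟨h, fun hb => by rw [hb] at hC; exact absurd hC (by simp)⟩
      have hC' : 0 ≤ C := by exact_mod_cast hC
      refine ⟨fun k => C + 1 / (k + 1), fun k => by positivity, fun w hw => ?_, fun w hw => ?_⟩
      · have hw' : w < C := by exact_mod_cast hw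
        refine ⟨C - w, by linarith, Eventually.of_forall fun k => ?_⟩
        have : (0 : ℝ) < 1 / ((k : ℝ) + 1) := by positivity
        linarith
      · have hw' : C < w := by exact_mod_cast hw
        refine ⟨(w - C) / 2, by linarith, ?_⟩
        have h1 : Tendsto (fun k : ℕ => 1 / ((k : ℝ) + 1)) atTop (nhds 0) :=
          tendsto_one_div_add_atTop_nhds_zero_nat
        filter_upwards [h1.eventually (gt_mem_nhds (show (0 : ℝ) < (w - C) / 2 by linarith))] with k hk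
        linarith
  obtain ⟨α, t, s, P, e, he0, hst, hsS, hs0, hup, hlow, heu, hel⟩ := point ζ hζ c hc0
  have htk : ∀ k, 8 * (k + 1) ≤ t k := fun k => by have := hst k; omega
  have ht0 : ∀ k, (0 : ℝ) < t k := fun k => by
    have h1 : 0 < t k := by have := htk k; omega
    exact_mod_cast h1
  have htlim : Tendsto (fun k => (t k : ℝ)) atTop atTop := by
    apply tendsto_natCast_atTop_atTop.comp
    apply tendsto_atTop_mono (f := fun k => k) _ tendsto_id
    intro k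
    have := htk k
    omega
  refine ⟨α, ?_, ?_⟩
  · intro a b hab
    obtain ⟨k, hk⟩ := exists_nat_ge (|(b : ℝ)|)
    have h1 := hlow k (-a) (-b) (by
      push_cast
      rw [abs_neg]
      have h2 : ((8 * (k + 1) : ℕ) : ℝ) ≤ t k := by exact_mod_cast htk k
      push_cast at h2
      linarith)
    have h2 : α + ((-a : ℤ) : ℝ) + ζ * ((-b : ℤ) : ℝ) = 0 := by
      rw [hab]
      push_cast
      ring
    rw [h2, abs_zero] at h1
    have := he0 k
    linarith
  · apply le_antisymm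
    · apply sSup_le
      rintro W ⟨w, rfl, X₀, hX₀⟩
      by_contra hcon
      rw [not_le] at hcon
      have hw0 : 0 < w := by
        have : (0 : EReal) < (w : EReal) := lt_of_le_of_lt hC hcon
        exact_mod_cast this
      obtain ⟨δ, hδ, hev⟩ := hc2 w hcon
      -- choose k large
      have hlim : Tendsto (fun k => (t k : ℝ) ^ δ) atTop atTop := (tendsto_rpow_atTop hδ).comp htlim
      obtain ⟨k, ⟨hk1, hk2⟩, hk3⟩ := ((hev.and (htlim.eventually_ge_atTop (max (8 * X₀) 8))).and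
        (hlim.eventually_gt_atTop (4 * (2 : ℝ) ^ w * 8 ^ w))).exists
      have htk8 : 8 ≤ (t k : ℝ) := (le_max_right _ _).trans hk2
      have htkX : X₀ ≤ t k / 8 := by
        have := (le_max_left (8 * X₀) 8).trans hk2
        linarith
      obtain ⟨x₀, x₁, hx1, hx2, hx3⟩ := hX₀ (t k / 8) htkX
      have hx1R : (1 : ℝ) ≤ x₁ := by exact_mod_cast hx1
      have h1 := hlow k x₀ x₁ (by rw [abs_of_nonneg (by linarith)]; exact hx2)
      have h2 : (2 * (t k : ℝ)) ^ (-c k) / 4 ≤ (t k / 8 : ℝ) ^ (-w) := by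
        have h3 := hel k
        linarith
      have h4 : (2 * (t k : ℝ)) ^ (-w + δ) ≤ (2 * (t k : ℝ)) ^ (-c k) :=
        Real.rpow_le_rpow_of_exponent_le (by linarith) (by linarith)
      have h5 : (2 * (t k : ℝ)) ^ (-w + δ) = (2 * (t k : ℝ)) ^ (-w) * (2 * (t k : ℝ)) ^ δ :=
        Real.rpow_add (by linarith) _ _
      have h6 : (t k : ℝ) ^ δ ≤ (2 * (t k : ℝ)) ^ δ :=
        Real.rpow_le_rpow (ht0 k).le (by linarith [ht0 k]) hδ.le
      have h7 : (2 * (t k : ℝ)) ^ (-w) = (2 : ℝ) ^ (-w) * (t k : ℝ) ^ (-w) :=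
        Real.mul_rpow (by norm_num) (ht0 k).le
      have h8 : (t k / 8 : ℝ) ^ (-w) = (t k : ℝ) ^ (-w) * (8 : ℝ) ^ w := by
        rw [Real.div_rpow (ht0 k).le (by norm_num), Real.rpow_neg (by norm_num : (0 : ℝ) ≤ 8)]
        field_simp
      have h9 : 0 < (t k : ℝ) ^ (-w) := Real.rpow_pos_of_pos (ht0 k) _
      have h10 : (2 : ℝ) ^ (-w) * (2 : ℝ) ^ w = 1 := by
        rw [← Real.rpow_add (by norm_num)]
        simp
      have h11 : 0 < (2 : ℝ) ^ (-w) := by positivity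
      have h12 : (2 : ℝ) ^ (-w) * (t k : ℝ) ^ (-w) * (t k : ℝ) ^ δ ≤
          4 * ((t k : ℝ) ^ (-w) * (8 : ℝ) ^ w) := by
        calc (2 : ℝ) ^ (-w) * (t k : ℝ) ^ (-w) * (t k : ℝ) ^ δ
            ≤ (2 : ℝ) ^ (-w) * (t k : ℝ) ^ (-w) * (2 * (t k : ℝ)) ^ δ :=
              mul_le_mul_of_nonneg_left h6 (by positivity)
          _ = (2 * (t k : ℝ)) ^ (-w + δ) := by rw [h5, h7]
          _ ≤ (2 * (t k : ℝ)) ^ (-c k) := h4
          _ ≤ 4 * ((t k : ℝ) ^ (-w) * (8 : ℝ) ^ w) := by rw [← h8]; linarith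
      have h13 : (2 : ℝ) ^ (-w) * (t k : ℝ) ^ δ ≤ 4 * (8 : ℝ) ^ w := by
        have h14 : (t k : ℝ) ^ (-w) * ((2 : ℝ) ^ (-w) * (t k : ℝ) ^ δ) ≤
            (t k : ℝ) ^ (-w) * (4 * (8 : ℝ) ^ w) := by
          calc _ = (2 : ℝ) ^ (-w) * (t k : ℝ) ^ (-w) * (t k : ℝ) ^ δ := by ring
            _ ≤ 4 * ((t k : ℝ) ^ (-w) * (8 : ℝ) ^ w) := h12
            _ = _ := by ring
        exact le_of_mul_le_mul_left h14 h9
      have h15 : (t k : ℝ) ^ δ ≤ 4 * (2 : ℝ) ^ w * 8 ^ w := by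
        calc (t k : ℝ) ^ δ = ((2 : ℝ) ^ (-w) * (t k : ℝ) ^ δ) * (2 : ℝ) ^ w := by
              rw [mul_comm, ← mul_assoc, mul_comm ((2 : ℝ) ^ w), h10, one_mul]
          _ ≤ (4 * (8 : ℝ) ^ w) * (2 : ℝ) ^ w := mul_le_mul_of_nonneg_right h13 (by positivity)
          _ = 4 * (2 : ℝ) ^ w * 8 ^ w := by ring
      linarith
    · apply le_of_forall_lt_imp_le_of_dense
      intro W hW
      -- a real number between
      obtain ⟨w, hw1, hw2⟩ := EReal.lt_iff_exists_real_btwn.mp hW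
      refine hw1.le.trans (le_sSup ⟨w, rfl, ?_⟩)
      rcases le_or_gt w 0 with hw0 | hw0
      · exact all_nonpos ζ α w hw0
      obtain ⟨δ, hδ, hev⟩ := hc1 w hw2
      have hlim : Tendsto (fun k => (t k : ℝ) ^ δ) atTop atTop := (tendsto_rpow_atTop hδ).comp htlim
      obtain ⟨K, hK⟩ := eventually_atTop.mp (hev.and
        (hlim.eventually_ge_atTop (2 * (2 : ℝ) ^ w)))
      refine ⟨s (K + 1), fun X hX => ?_⟩
      -- find k ≥ K + 1 with s k ≤ X < s (k + 1)
      have hsmono : ∀ k, k ≤ s k ∨ k = 0 := by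
        intro k
        rcases Nat.eq_zero_or_pos k with h | h
        · exact Or.inr h
        · left
          obtain ⟨j, rfl⟩ : ∃ j, k = j + 1 := ⟨k - 1, by omega⟩
          have h1 := hsS j
          have h2 := htk j
          omega
      have hex : ∃ k, K + 1 ≤ k ∧ X < s (k + 1) := by
        obtain ⟨n, hn⟩ := exists_nat_gt X
        refine ⟨max (K + 1) n, le_max_left _ _, ?_⟩
        have h1 : max (K + 1) n + 1 ≤ s (max (K + 1) n + 1) := by
          rcases hsmono (max (K + 1) n + 1) with h | h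
          · exact h
          · omega
        have h2 : n ≤ s (max (K + 1) n + 1) := by
          have := le_max_right (K + 1) n
          omega
        have h3 : (n : ℝ) ≤ s (max (K + 1) n + 1) := by exact_mod_cast h2
        linarith
      classical
      obtain ⟨hk1, hk2⟩ := Nat.find_spec hex
      set k := Nat.find hex with hkdef
      have hk3 : (s k : ℝ) ≤ X := by
        rcases Nat.lt_or_ge (K + 1) k with h | h
        · by_contra hcon
          rw [not_le] at hcon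
          have := Nat.find_min hex (m := k - 1) (by omega)
          apply this
          refine ⟨by omega, ?_⟩
          rw [show k - 1 + 1 = k by omega]
          exact hcon
        · have : k = K + 1 := by omega
          rw [this]
          exact hX
      obtain ⟨hk4, hk5⟩ := hK k (by omega)
      have hsk1 : 1 ≤ s k := by
        rcases hsmono k with h | h
        · omega
        · omega
      refine ⟨P k, s k, by exact_mod_cast hsk1, by exact_mod_cast hk3, ?_⟩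
      have hX0 : 0 < X := by
        have : (1 : ℝ) ≤ s k := by exact_mod_cast hsk1
        linarith
      have hX2 : X ≤ 2 * t k := by
        have h1 : (s (k + 1) : ℝ) = s k + t k := by
          rw [hsS k]
          push_cast
          ring
        have h2 : ((8 * s k + 8 * (k + 1) : ℕ) : ℝ) ≤ t k := by exact_mod_cast hst k
        push_cast at h2
        have h3 : (0 : ℝ) ≤ k := Nat.cast_nonneg k
        have h4 : (0 : ℝ) ≤ s k := Nat.cast_nonneg _
        linarith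
      have h1 : |α + (P k : ℝ) + ζ * ((s k : ℤ) : ℝ)| ≤ 2 * e k := by
        push_cast
        exact hup k
      refine h1.trans ?_
      have h2 : (2 * (t k : ℝ)) ^ (-w) ≤ X ^ (-w) :=
        Real.rpow_le_rpow_of_nonpos hX0 hX2 (by linarith)
      refine le_trans ?_ h2
      have htk1 : (1 : ℝ) ≤ t k := by
        have h3 : 1 ≤ t k := by have := htk k; omega
        exact_mod_cast h3
      have h3 : e k ≤ (t k : ℝ) ^ (-w) * (t k : ℝ) ^ (-δ) := by
        rw [← Real.rpow_add (ht0 k)]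
        exact (heu k).trans (Real.rpow_le_rpow_of_exponent_le htk1 (by linarith))
      have h4 : (2 * (t k : ℝ)) ^ (-w) = (2 : ℝ) ^ (-w) * (t k : ℝ) ^ (-w) :=
        Real.mul_rpow (by norm_num) (ht0 k).le
      rw [h4]
      have h5 : 2 * (t k : ℝ) ^ (-δ) ≤ (2 : ℝ) ^ (-w) := by
        rw [Real.rpow_neg (ht0 k).le, Real.rpow_neg (by norm_num : (0 : ℝ) ≤ 2), ← div_eq_mul_inv,
          div_le_iff₀ (by positivity), inv_mul_eq_div, le_div_iff₀ (by positivity)]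
        exact hk5
      calc 2 * e k ≤ 2 * ((t k : ℝ) ^ (-w) * (t k : ℝ) ^ (-δ)) := by linarith
        _ = (2 * (t k : ℝ) ^ (-δ)) * (t k : ℝ) ^ (-w) := by ring
        _ ≤ (2 : ℝ) ^ (-w) * (t k : ℝ) ^ (-w) := mul_le_mul_of_nonneg_right h5 (by positivity)

/-- **The spectrum is everything.** For every Liouville number `ζ` the spectrum
`S(ζ) = {ŵ₁(ζ, α) : α ∈ ℝ ∖ (ℤ + ℤ ζ)}` is the whole interval `[0, ∞]`. In particular it contains
`[0, 1]` (Q1), but it is never equal to `[0, 1]` (Q2). -/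
theorem result : ∀ ζ : ℝ, Liouville ζ → spectrum ζ = Set.Icc (0 : EReal) ⊤ := by
  intro ζ hζ
  apply Set.Subset.antisymm
  · rintro W ⟨α, -, rfl⟩
    refine ⟨le_sSup ⟨0, by simp, all_nonpos ζ α 0 le_rfl⟩, le_top⟩
  · rintro C ⟨hC, -⟩
    exact attained ζ hζ C hC

end Pool.Agent.Results.MP_12d26a_nt.FullSpectrum
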